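import Pool.Agent.H11.ZF1

open H11.ZF

theorem Pool.Agent.Results.MP_d17388_co.Counter.result :
    (∃ S : Finset (Fin 6 → Bool), IsMinZFS (Q 6) S ∧ pt (Q 6) S = 18) ∧ 18 ≤ PT (Q 6) ∧
      ∃ d : ℕ, 2 ≤ d ∧ PT (Q d) ≠ 2 ^ (d - 2) := by
  refine ⟨⟨S0, S0_min, S0_pt⟩, PT_ge, 6, by norm_num, ?_⟩
  have := PT_ge
  norm_num; omega
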